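import Mathlib

namespace Pool.Agent.H.MP_5068ad_an
open Metric Set

section props
variable {B : Type} [NormedAddCommGroup B]

/-- open multiplication -/
def OpenMul (m : B → B → B) : Prop :=
  ∀ (x y : B) (ε : ℝ), 0 < ε → ∃ δ : ℝ, 0 < δ ∧ ball (m x y) δ ⊆ image2 m (ball x ε) (ball y ε)

/-- uniformly open multiplication -/
def UnifOpenMul (m : B → B → B) : Prop :=
  ∀ ε : ℝ, 0 < ε → ∃ δ : ℝ, 0 < δ ∧ ∀ x y : B, ball (m x y) δ ⊆ image2 m (ball x ε) (ball y ε)

/-- weakly open multiplication -/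
def WeakOpenMul (m : B → B → B) : Prop :=
  ∀ U : Set (B × B), IsOpen U → U.Nonempty → (interior ((fun p => m p.1 p.2) '' U)).Nonempty

end props

section arens
variable {𝕜 A : Type} [RCLike 𝕜] [NonUnitalNormedRing A] [NormedSpace 𝕜 A] [IsScalarTower 𝕜 A A]
  [SMulCommClass 𝕜 A A]

/-- `a ↦ f · a`, where `(f · a) b = f (a * b)` -/
noncomputable def dotL (f : StrongDual 𝕜 A) : A →L[𝕜] StrongDual 𝕜 A :=
  (ContinuousLinearMap.compL 𝕜 A A 𝕜 f).comp (ContinuousLinearMap.mul 𝕜 A)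

/-- `a ↦ a · f`, where `(a · f) b = f (b * a)` -/
noncomputable def dotR (f : StrongDual 𝕜 A) : A →L[𝕜] StrongDual 𝕜 A := (dotL f).flip

lemma dotL_le (f : StrongDual 𝕜 A) : ‖dotL f‖ ≤ ‖f‖ :=
  ContinuousLinearMap.opNorm_le_bound₂ _ (norm_nonneg f) fun a b =>
    (f.le_opNorm (a * b)).trans (by rw [mul_assoc]; gcongr; exact norm_mul_le a b)

lemma dotR_le (f : StrongDual 𝕜 A) : ‖dotR f‖ ≤ ‖f‖ :=
  (ContinuousLinearMap.opNorm_flip (dotL f)).trans_le (dotL_le f)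

lemma bnd (F G : StrongDual 𝕜 (StrongDual 𝕜 A)) {f : StrongDual 𝕜 A} {d : A →L[𝕜] StrongDual 𝕜 A}
    (h : ‖d‖ ≤ ‖f‖) : ‖F (G.comp d)‖ ≤ ‖F‖ * ‖G‖ * ‖f‖ :=
  (F.le_opNorm _).trans (by
    rw [mul_assoc]
    exact mul_le_mul_of_nonneg_left ((G.opNorm_comp_le d).trans
      (mul_le_mul_of_nonneg_left h (norm_nonneg G))) (norm_nonneg F))

/-- first Arens product: `f ↦ F (G · f)`, `(G · f) a = G (f · a)` -/
noncomputable def arens1 (F G : StrongDual 𝕜 (StrongDual 𝕜 A)) : StrongDual 𝕜 (StrongDual 𝕜 A) :=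
  LinearMap.mkContinuous
    { toFun := fun f => F (G.comp (dotL f))
      map_add' := fun f g => by rw [← map_add]; congr 1; ext a; exact G.map_add (dotL f a) (dotL g a)
      map_smul' := fun c f => by rw [← map_smul]; congr 1; ext a; exact G.map_smul c (dotL f a) }
    (‖F‖ * ‖G‖) fun f => bnd F G (dotL_le f)

/-- second Arens product: `f ↦ G (f · F)`, `(f · F) a = F (a · f)` -/
noncomputable def arens2 (F G : StrongDual 𝕜 (StrongDual 𝕜 A)) : StrongDual 𝕜 (StrongDual 𝕜 A) :=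
  LinearMap.mkContinuous
    { toFun := fun f => G (F.comp (dotR f))
      map_add' := fun f g => by rw [← map_add]; congr 1; ext a; exact F.map_add (dotR f a) (dotR g a)
      map_smul' := fun c f => by rw [← map_smul]; congr 1; ext a; exact F.map_smul c (dotR f a) }
    (‖G‖ * ‖F‖) fun f => bnd G F (dotR_le f)

end arens

end Pool.Agent.H.MP_5068ad_an
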