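import Mathlib
import Pool.Agent.H.MP_5068ad_an.Defs

namespace Pool.Agent.H.MP_5068ad_an
open Metric Set Filter Topology

section props
variable {B : Type} [NormedAddCommGroup B] {m : B → B → B}

lemma UnifOpenMul.open (h : UnifOpenMul m) : OpenMul m := fun x y ε hε =>
  let ⟨δ, h1, h2⟩ := h ε hε
  ⟨δ, h1, h2 x y⟩

lemma OpenMul.weak (h : OpenMul m) : WeakOpenMul m := by
  rintro U hU ⟨⟨x, y⟩, hp⟩
  obtain ⟨ε, hε, h1⟩ := Metric.isOpen_iff.1 hU _ hp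
  obtain ⟨δ, hδ, h2⟩ := h x y ε hε
  refine ⟨m x y, mem_interior.2 ⟨_, h2.trans ?_, isOpen_ball, mem_ball_self hδ⟩⟩
  rintro _ ⟨a, ha, b, hb, rfl⟩
  exact ⟨(a, b), h1 (by rw [← ball_prod_same]; exact ⟨ha, hb⟩), rfl⟩

end props

variable {𝕜 B : Type} [RCLike 𝕜] [NormedRing B] [NormedAlgebra 𝕜 B]

variable (𝕜) in
def NN (S T : B) : NonUnitalSubalgebra 𝕜 B where
  carrier := {x | ∀ᶠ n in atTop, x * S ^ n = 0 ∧ T ^ n * x = 0}
  add_mem' := fun {a b} ha hb => (ha.and hb).mono fun n h => by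
    rw [add_mul, mul_add, h.1.1, h.1.2, h.2.1, h.2.2]; simp
  zero_mem' := Eventually.of_forall fun n => by simp
  mul_mem' := fun {a b} ha hb => (ha.and hb).mono fun n h => by
    rw [mul_assoc, h.2.1, ← mul_assoc, h.1.2]; simp
  smul_mem' := fun c a ha => ha.mono fun n h => by
    rw [smul_mul_assoc, mul_smul_comm, h.1, h.2]; simp

lemma mem_NN {S T x : B} : x ∈ NN 𝕜 S T ↔ ∃ n, ∀ m ≥ n, x * S ^ m = 0 ∧ T ^ m * x = 0 :=
  eventually_atTop

variable {S T : B}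

lemma pw (h : T * S = 1) (n : ℕ) : T ^ n * S ^ n = 1 := by
  induction n with
  | zero => simp
  | succ n ih => rw [pow_succ, pow_succ', mul_assoc, ← mul_assoc T, h, one_mul, ih]

lemma pw1 (h : T * S = 1) {n d : ℕ} (hd : n ≤ d) : T ^ d * (1 - S ^ n * T ^ n) = 0 := by
  obtain ⟨k, rfl⟩ := Nat.exists_eq_add_of_le' hd
  rw [pow_add, mul_assoc, mul_sub, ← mul_assoc, pw h]; simp

lemma pw2 (h : T * S = 1) {n d : ℕ} (hd : n ≤ d) : (1 - S ^ n * T ^ n) * S ^ d = 0 := by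
  obtain ⟨k, rfl⟩ := Nat.exists_eq_add_of_le hd
  rw [pow_add, ← mul_assoc, sub_mul, mul_assoc, pw h]; simp

lemma P_mem (h : T * S = 1) (n : ℕ) : 1 - S ^ n * T ^ n ∈ NN 𝕜 S T :=
  mem_NN.2 ⟨n, fun _ hd => ⟨pw2 h hd, pw1 h hd⟩⟩

lemma S_mem (h : T * S = 1) (k : ℕ) {x : B} (hx : x ∈ NN 𝕜 S T) : S ^ k * x ∈ NN 𝕜 S T := by
  obtain ⟨n, hn⟩ := mem_NN.1 hx
  refine mem_NN.2 ⟨n + k, fun m hm => ⟨by rw [mul_assoc, (hn m (by omega)).1, mul_zero], ?_⟩⟩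
  obtain ⟨d, rfl⟩ := Nat.exists_eq_add_of_le' (show k ≤ m by omega)
  rw [pow_add, mul_assoc, ← mul_assoc (T ^ k), pw h, one_mul, (hn d (by omega)).2]

lemma T_mem (h : T * S = 1) (k : ℕ) {x : B} (hx : x ∈ NN 𝕜 S T) : x * T ^ k ∈ NN 𝕜 S T := by
  obtain ⟨n, hn⟩ := mem_NN.1 hx
  refine mem_NN.2 ⟨n + k, fun m hm => ⟨?_, by rw [← mul_assoc, (hn m (by omega)).2, zero_mul]⟩⟩
  obtain ⟨d, rfl⟩ := Nat.exists_eq_add_of_le (show k ≤ m by omega)
  rw [pow_add, mul_assoc, ← mul_assoc (T ^ k), pw h, one_mul, (hn d (by omega)).1]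

lemma T_mem' {x : B} (hx : x ∈ NN 𝕜 S T) : T * x ∈ NN 𝕜 S T :=
  Eventually.mono hx fun n h => ⟨by rw [mul_assoc, h.1, mul_zero], by
    rw [← mul_assoc, ← pow_succ, pow_succ', mul_assoc, h.2, mul_zero]⟩

lemma P_le (hS : ∀ n, ‖S ^ n‖ ≤ 1) (hT : ∀ n, ‖T ^ n‖ ≤ 1) (n : ℕ) : ‖1 - S ^ n * T ^ n‖ ≤ 2 := by
  have h1 := hS 0
  have h2 := (norm_mul_le (S ^ n) (T ^ n)).trans (mul_le_one₀ (hS n) (norm_nonneg _) (hT n))
  rw [pow_zero] at h1
  linarith [norm_sub_le 1 (S ^ n * T ^ n)]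

variable [CompleteSpace B]

lemma geo {u : ℕ → B} {c : ℝ} (hu : ∀ k, ‖u k‖ ≤ c * (1 / 2) ^ k) (hm : ∀ k, u k ∈ NN 𝕜 S T) :
    ∃ a ∈ (NN 𝕜 S T).topologicalClosure, HasSum u a ∧ ‖a‖ ≤ c * 2 := by
  have h1 := hasSum_geometric_two.mul_left c
  have h2 := (Summable.of_norm_bounded h1.summable hu).hasSum
  exact ⟨_, mem_closure_of_tendsto h2.tendsto_sum_nat (Eventually.of_forall fun n =>
    sum_mem fun k _ => hm k), h2, tsum_of_norm_bounded h1 hu⟩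

lemma fac (h : T * S = 1) (hS : ∀ n, ‖S ^ n‖ ≤ 1) (hT : ∀ n, ‖T ^ n‖ ≤ 1) {x y z : B}
    (hx : x ∈ NN 𝕜 S T) (hy : y ∈ NN 𝕜 S T) (hz : z ∈ (NN 𝕜 S T).topologicalClosure) {r : ℝ}
    (hr : 0 < r) (hzr : ‖z‖ < r ^ 2) : ∃ a ∈ (NN 𝕜 S T).topologicalClosure,
    ∃ b ∈ (NN 𝕜 S T).topologicalClosure, ‖a‖ ≤ 4 * r ∧ ‖b‖ ≤ 4 * r ∧ (x + a) * (y + b) = x * y + z := by
  obtain ⟨v, v1, v2, v3, v4⟩ := controlled_sum_of_mem_closure
    (s := (NN 𝕜 S T).toSubmodule.toAddSubgroup) (a := z) hz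
    (b := fun k => r ^ 2 * (1 / 4) ^ k) fun k => by positivity
  have v5 : ∀ k, ‖v k‖ ≤ 2 * r ^ 2 * (1 / 4) ^ k := fun k => by
    rcases k.eq_zero_or_pos with rfl | hk
    · have := norm_sub_le z (-v 0 + z)
      simp only [pow_zero, mul_one] at v3 ⊢
      rw [show z - (-v 0 + z) = v 0 by abel] at this
      linarith
    · have : 0 ≤ r ^ 2 * (1 / 4) ^ k := by positivity
      linarith [v4 k hk]
  have v6 : HasSum v z := by
    have : Summable v := Summable.of_norm_bounded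
      ((summable_geometric_of_lt_one (by norm_num) (by norm_num)).mul_left _) v5
    exact this.hasSum_iff_tendsto_nat.2 ((tendsto_add_atTop_iff_nat 1).1 v1)
  choose n hn using fun k => (mem_NN (𝕜 := 𝕜)).1 (v2 k)
  obtain ⟨n1, hn1⟩ := mem_NN.1 hx
  obtain ⟨n2, hn2⟩ := mem_NN.1 hy
  let m : ℕ → ℕ := fun k => n1 + n2 + ∑ j ∈ Finset.range k, n j
  have hm : ∀ j k, j < k → ∃ d, n j ≤ d ∧ m k = m j + d := fun j k hjk => by
    have h1 : ∑ i ∈ Finset.range (j + 1), n i ≤ ∑ i ∈ Finset.range k, n i :=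
      Finset.sum_le_sum_of_subset (Finset.range_mono hjk)
    rw [Finset.sum_range_succ] at h1
    exact ⟨m k - m j, by simp only [m]; omega, by simp only [m]; omega⟩
  let c : ℕ → 𝕜 := fun k => ((r * (1 / 2) ^ k : ℝ) : 𝕜)
  have hc : ∀ k, ‖c k‖ = r * (1 / 2) ^ k := fun k => by
    rw [RCLike.norm_ofReal, abs_of_pos (by positivity)]
  have hc0 : ∀ k, c k ≠ 0 := fun k => norm_pos_iff.1 (by rw [hc]; positivity)
  obtain ⟨a, a1, a2, a3⟩ := geo (𝕜 := 𝕜) (u := fun k => (c k)⁻¹ • (v k * T ^ m k)) (c := 2 * r)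
    (fun k => by
      have e : (1 / 4 : ℝ) ^ k = (1 / 2) ^ k * (1 / 2) ^ k := by rw [← mul_pow]; norm_num
      have e1 := (norm_mul_le (v k) (T ^ m k)).trans (mul_le_of_le_one_right (norm_nonneg _) (hT _))
      rw [norm_smul, norm_inv, hc, inv_mul_le_iff₀ (by positivity)]
      exact (e1.trans (v5 k)).trans_eq (by rw [e]; ring))
    fun k => SMulMemClass.smul_mem _ (T_mem h _ (v2 k))
  obtain ⟨b, b1, b2, b3⟩ := geo (𝕜 := 𝕜) (u := fun k => c k • (S ^ m k * (1 - S ^ n k * T ^ n k)))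
    (c := 2 * r) (fun k => by
      have e1 := (norm_mul_le (S ^ m k) _).trans (mul_le_mul (hS _) (P_le hS hT (n k))
        (norm_nonneg _) zero_le_one)
      rw [norm_smul, hc]
      exact (mul_le_mul_of_nonneg_left e1 (by positivity)).trans_eq (by ring))
    fun k => SMulMemClass.smul_mem _ (S_mem h _ (P_mem h _))
  refine ⟨a, a1, b, b1, by linarith, by linarith, ?_⟩
  have e1 : x * b = 0 := by
    refine (b2.mul_left x).unique ?_
    convert hasSum_zero with k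
    rw [mul_smul_comm, ← mul_assoc, (hn1 _ (by simp only [m]; omega)).1]; simp
  have e2 : a * y = 0 := by
    refine (a2.mul_right y).unique ?_
    convert hasSum_zero with k
    rw [smul_mul_assoc, mul_assoc, (hn2 _ (by simp only [m]; omega)).2]; simp
  have e3 : a * b = z := by
    suffices H : ∀ k, (c k)⁻¹ • (v k * T ^ m k) * b = v k from
      (a2.mul_right b).unique (by simpa only [H] using v6)
    intro k
    have e : v k = (c k)⁻¹ • (v k * T ^ m k) * c k • (S ^ m k * (1 - S ^ n k * T ^ n k)) := by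
      rw [smul_mul_smul_comm, inv_mul_cancel₀ (hc0 k), one_smul, mul_assoc, ← mul_assoc (T ^ m k),
        pw h, one_mul, mul_sub, ← mul_assoc, (hn k _ le_rfl).1]; simp
    refine ((b2.mul_left _).unique (hasSum_single k fun j hj => ?_)).trans e.symm
    rw [smul_mul_smul_comm, mul_assoc, ← mul_assoc (T ^ m k)]
    rcases lt_or_gt_of_ne hj with h1 | h1
    · obtain ⟨d, d1, d2⟩ := hm j k h1
      rw [d2, add_comm (m j), pow_add, mul_assoc (T ^ d), pw h, mul_one, pw1 h d1]; simp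
    · obtain ⟨d, d1, d2⟩ := hm k j h1
      rw [d2, pow_add S, ← mul_assoc (T ^ m k), pw h, one_mul, ← mul_assoc, (hn k _ d1).1]; simp
  rw [add_mul, mul_add, mul_add, e1, e2, e3]; simp

theorem unif (h : T * S = 1) (hS : ∀ n, ‖S ^ n‖ ≤ 1) (hT : ∀ n, ‖T ^ n‖ ≤ 1) :
    UnifOpenMul fun a b : (NN 𝕜 S T).topologicalClosure => a * b := by
  intro ε hε
  refine ⟨(ε / 5) ^ 2 / 2, by positivity, fun x y z hz => ?_⟩
  have h1 : (x.1, y.1) ∈ closure ((NN 𝕜 S T : Set B) ×ˢ (NN 𝕜 S T : Set B)) := by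
    rw [closure_prod_eq]; exact ⟨x.2, y.2⟩
  have o1 : ∀ (f : B × B → ℝ) (c : ℝ), Continuous f → IsOpen {w | f w < c} := fun f c hf =>
    isOpen_lt hf continuous_const
  obtain ⟨⟨p, q⟩, ⟨k1, k2, k3⟩, hp, hq⟩ := _root_.mem_closure_iff.1 h1 ({w | ‖w.1 - x‖ < ε / 5} ∩
    ({w | ‖w.2 - y‖ < ε / 5} ∩ {w | ‖x * y - w.1 * w.2‖ < (ε / 5) ^ 2 / 2}))
    ((o1 _ _ (by fun_prop)).inter ((o1 _ _ (by fun_prop)).inter (o1 _ _ (by fun_prop))))
    (by simp [hε])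
  simp only [mem_ofPred_eq] at k1 k2 k3 hp hq
  have k4 : ‖z.1 - x * y‖ < (ε / 5) ^ 2 / 2 := mem_ball_iff_norm.1 hz
  have le := (NN 𝕜 S T).le_topologicalClosure
  obtain ⟨a, a1, b, b1, a2, b2, e⟩ := fac h hS hT hp hq (z := z - p * q)
    (sub_mem z.2 (le (mul_mem hp hq))) (r := ε / 5) (by positivity)
    (by linarith [norm_sub_le_norm_sub_add_norm_sub z.1 (x * y) (p * q)])
  refine ⟨⟨p + a, add_mem (le hp) a1⟩, mem_ball_iff_norm.2 ?_, ⟨q + b, add_mem (le hq) b1⟩,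
    mem_ball_iff_norm.2 ?_, Subtype.ext (e.trans (by simp))⟩
  · change ‖p + a - x‖ < ε
    rw [add_sub_right_comm]; linarith [norm_add_le (p - x) a]
  · change ‖q + b - y‖ < ε
    rw [add_sub_right_comm]; linarith [norm_add_le (q - y) b]

end Pool.Agent.H.MP_5068ad_an
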