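import Mathlib
import Pool.Agent.H.MP_5068ad_an.A

namespace Pool.Agent.H.MP_5068ad_an
open Metric Set Filter Topology
open scoped InnerProductSpace

variable {𝕜 H : Type} [RCLike 𝕜] [NormedAddCommGroup H] [InnerProductSpace 𝕜 H] [CompleteSpace H]

lemma refl (Φ : StrongDual 𝕜 (StrongDual 𝕜 H)) : ∃ ξ : H, ∀ φ : StrongDual 𝕜 H, φ ξ = Φ φ := by
  let ψ : StrongDual 𝕜 H := LinearMap.mkContinuous
    { toFun := fun η => (starRingEnd 𝕜) (Φ (InnerProductSpace.toDual 𝕜 H η))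
      map_add' := fun a b => by simp
      map_smul' := fun c a => by rw [LinearIsometryEquiv.map_smulₛₗ]; simp } ‖Φ‖ fun η => by
      simpa using Φ.le_opNorm (InnerProductSpace.toDual 𝕜 H η)
  refine ⟨(InnerProductSpace.toDual 𝕜 H).symm ψ, fun φ => ?_⟩
  obtain ⟨η, rfl⟩ := (InnerProductSpace.toDual 𝕜 H).surjective φ
  rw [InnerProductSpace.toDual_apply_apply, ← inner_conj_symm, InnerProductSpace.toDual_symm_apply]
  exact RCLike.conj_conj _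

variable {A : Type} [NonUnitalNormedRing A] [NormedSpace 𝕜 A] (j : A →ₗᵢ[𝕜] (H →L[𝕜] H))

noncomputable def ev (ξ : H) : A →L[𝕜] H := LinearMap.mkContinuous
  { toFun := fun a => j a ξ
    map_add' := fun _ _ => by rw [map_add]; rfl
    map_smul' := fun _ _ => by rw [map_smul]; rfl } ‖ξ‖
  fun a => ((j a).le_opNorm ξ).trans_eq (by rw [j.norm_map, mul_comm])

def Rep (F : StrongDual 𝕜 (StrongDual 𝕜 A)) (X : H →L[𝕜] H) : Prop :=
  ∀ ξ (φ : StrongDual 𝕜 H), φ (X ξ) = F (φ.comp (ev j ξ))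

variable {j}

omit [CompleteSpace H] in
lemma rep_bd (F : StrongDual 𝕜 (StrongDual 𝕜 A)) {ξ η : H}
    (h : ∀ φ : StrongDual 𝕜 H, φ η = F (φ.comp (ev j ξ))) : ‖η‖ ≤ ‖F‖ * ‖ξ‖ := by
  refine NormedSpace.norm_le_dual_bound 𝕜 η (mul_nonneg (norm_nonneg F) (norm_nonneg _)) fun φ => ?_
  rw [h, mul_assoc]
  refine (F.le_opNorm _).trans (mul_le_mul_of_nonneg_left ?_ (norm_nonneg F))
  refine (φ.opNorm_comp_le _).trans ?_
  rw [mul_comm]
  exact mul_le_mul_of_nonneg_right (LinearMap.mkContinuous_norm_le _ (norm_nonneg _) _) (norm_nonneg φ)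

variable (j) in
lemma exists_rep (F : StrongDual 𝕜 (StrongDual 𝕜 A)) : ∃ X, Rep j F X := by
  have : ∀ ξ : H, ∃ η : H, ∀ φ : StrongDual 𝕜 H, φ η = F (φ.comp (ev j ξ)) := fun ξ =>
    refl (F.comp ((ContinuousLinearMap.compL 𝕜 A H 𝕜).flip (ev j ξ)))
  choose g hg using this
  refine ⟨LinearMap.mkContinuous
    { toFun := g
      map_add' := fun a b => (SeparatingDual.eq_iff_forall_dual_eq (R := 𝕜)).2 fun φ => ?_
      map_smul' := fun c a => (SeparatingDual.eq_iff_forall_dual_eq (R := 𝕜)).2 fun φ => ?_ } ‖F‖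
      fun ξ => rep_bd F (hg ξ), hg⟩
  · rw [map_add, hg, hg, hg, ← map_add]
    congr 1; ext z
    change φ (j z (a + b)) = φ (j z a) + φ (j z b)
    rw [map_add, map_add]
  · rw [map_smul, hg, hg, ← map_smul]
    congr 1; ext z
    change φ (j z (c • a)) = c • φ (j z a)
    rw [map_smul, map_smul]

section
omit [CompleteSpace H]
variable {F G : StrongDual 𝕜 (StrongDual 𝕜 A)} {X Y : H →L[𝕜] H}

lemma Rep.near (h : Rep j F X) (k : Rep j G Y) : ‖X - Y‖ ≤ dist F G :=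
  (ContinuousLinearMap.opNorm_le_bound _ (norm_nonneg (F - G)) fun ξ => rep_bd (F - G) fun φ => by
    rw [sub_apply, map_sub, h, k]; rfl).trans_eq (dist_eq_norm F G).symm

lemma Rep.add (h : Rep j F X) (a : A) : Rep j (F + NormedSpace.inclusionInDoubleDual 𝕜 A a) (X + j a) :=
  fun ξ φ => by rw [add_apply, map_add, h]; rfl

section
variable [IsScalarTower 𝕜 A A] [SMulCommClass 𝕜 A A] (hj : ∀ a b, j (a * b) = j a * j b)
include hj

lemma Rep.a1 (h : Rep j F X) (k : Rep j G Y) : Rep j (arens1 F G) (X * Y) := fun ξ φ => by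
  change φ (X (Y ξ)) = F (G.comp (dotL (φ.comp (ev j ξ))))
  rw [h]
  congr 1; ext a
  refine (k ξ (φ.comp (j a))).trans (congrArg G ?_)
  ext b
  change φ (j a (j b ξ)) = φ (j (a * b) ξ)
  rw [hj]; rfl

lemma Rep.a2 (h : Rep j F X) (k : Rep j G Y) : Rep j (arens2 F G) (X * Y) := fun ξ φ => by
  change (φ.comp X) (Y ξ) = G (F.comp (dotR (φ.comp (ev j ξ))))
  rw [k]
  congr 1; ext a
  refine (h (j a ξ) φ).trans (congrArg F ?_)
  ext b
  change φ (j b (j a ξ)) = φ (j (b * a) ξ)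
  rw [hj]; rfl

end

lemma lim_rep (z : ℕ → A) (hz : ∀ n, ‖z n‖ ≤ 2) (h : ∀ ξ, Tendsto (fun n => j (z n) ξ) atTop (𝓝 (X ξ))) :
    ∃ F : StrongDual 𝕜 (StrongDual 𝕜 A), Rep j F X := by
  let u : ℕ → WeakDual 𝕜 (StrongDual 𝕜 A) := fun n =>
    StrongDual.toWeakDual (NormedSpace.inclusionInDoubleDual 𝕜 A (z n))
  obtain ⟨F, -, hF⟩ := (WeakDual.isCompact_closedBall (0 : StrongDual 𝕜 (StrongDual 𝕜 A))
    2).exists_mapClusterPt (f := atTop) (u := u) (by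
      rw [le_principal_iff, mem_map]
      exact Eventually.of_forall fun n => mem_closedBall_zero_iff.2
        ((NormedSpace.double_dual_bound 𝕜 A _).trans (hz n)))
  refine ⟨F, fun ξ φ => ?_⟩
  have h1 := hF.continuousAt_comp (WeakDual.eval_continuous (φ.comp (ev j ξ))).continuousAt
  have h2 : Tendsto (fun n => u n (φ.comp (ev j ξ))) atTop (𝓝 (φ (X ξ))) :=
    (φ.continuous.tendsto _).comp (h ξ)
  exact (eq_of_nhds_neBot (h1.clusterPt.mono h2)).symm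

end

theorem abs_nw {D : Type} [NormedAddCommGroup D] {R : D → (H →L[𝕜] H) → Prop}
    (near : ∀ {F G X Y}, R F X → R G Y → ‖X - Y‖ ≤ dist F G) (ex : ∀ F, ∃ X, R F X)
    {S T : H →L[𝕜] H} (h : T * S = 1) (S1 : ‖S‖ ≤ 1) (T1 : ‖T‖ ≤ 1) {e : H} (he : e ≠ 0)
    (hTe : T e = 0) {F0 G0 : D} (f0 : R F0 S) (g0 : R G0 T)
    (pert : ∀ r > 0, ∀ F X, R F X → ∃ t : 𝕜, t ≠ 0 ∧ ∃ F', dist F' F < r ∧ R F' (X + t • (1 - S * T)))
    (m : D → D → D) (hm : ∀ F G X Y, R F X → R G Y → R (m F G) (X * Y)) : ¬ WeakOpenMul m := by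
  intro hw
  have u1 : ∀ {F X}, R F X → F ∈ ball F0 1 → IsUnit (T * X) := fun {F X} k hF => by
    have h1 := (near f0 k).trans_lt (mem_ball'.1 hF)
    have h2 : ‖T * (S - X)‖ < 1 := (norm_mul_le _ _).trans_lt
      ((mul_le_of_le_one_left (norm_nonneg _) T1).trans_lt h1)
    simpa [mul_sub, h] using isUnit_one_sub_of_norm_lt_one h2
  have u2 : ∀ {G Y}, R G Y → G ∈ ball G0 1 → IsUnit (Y * S) := fun {G Y} k hG => by
    have h1 := (near g0 k).trans_lt (mem_ball'.1 hG)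
    have h2 : ‖(T - Y) * S‖ < 1 := (norm_mul_le _ _).trans_lt
      ((mul_le_of_le_one_right (norm_nonneg _) S1).trans_lt h1)
    simpa [sub_mul, h] using isUnit_one_sub_of_norm_lt_one h2
  have inj : ∀ {Z : H →L[𝕜] H}, IsUnit Z → ∀ ξ, Z ξ = 0 → ξ = 0 := fun {Z} hZ ξ k => by
    obtain ⟨V, hV⟩ := hZ.exists_left_inv
    have : V (Z ξ) = ξ := congrArg (fun W : H →L[𝕜] H => W ξ) hV
    rw [← this, k, map_zero]
  have hTS : ∀ ξ, T (S ξ) = ξ := fun ξ => congrArg (fun W : H →L[𝕜] H => W ξ) h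
  obtain ⟨W, hW⟩ := hw (ball F0 1 ×ˢ ball G0 1) (isOpen_ball.prod isOpen_ball)
    ⟨(F0, G0), mem_ball_self one_pos, mem_ball_self one_pos⟩
  obtain ⟨r, hr, hW2⟩ := Metric.mem_nhds_iff.1 (mem_interior_iff_mem_nhds.1 hW)
  obtain ⟨⟨F, G⟩, ⟨hF, hG⟩, rfl⟩ := interior_subset hW
  obtain ⟨X, hX⟩ := ex F
  obtain ⟨Y, hY⟩ := ex G
  obtain ⟨t, ht, W', w1, w2⟩ := pert r hr _ _ (hm _ _ _ _ hX hY)
  obtain ⟨⟨F', G'⟩, ⟨-, hG'⟩, rfl⟩ := hW2 w1
  obtain ⟨X', hX'⟩ := ex F'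
  obtain ⟨Y', hY'⟩ := ex G'
  have e2 := near w2 (hm _ _ _ _ hX' hY')
  rw [dist_self, norm_le_zero_iff, sub_eq_zero] at e2
  obtain ⟨V, hV⟩ := (u2 hY' hG').exists_right_inv
  have e3 : Y' (S (V (Y' e))) = Y' e := congrArg (fun W : H →L[𝕜] H => W (Y' e)) hV
  obtain ⟨ξ, hξ⟩ : ∃ ξ, ξ = e - S (V (Y' e)) := ⟨_, rfl⟩
  have e4 : X (Y ξ) + t • (ξ - S (T ξ)) = 0 := by
    have : X (Y ξ) + t • (ξ - S (T ξ)) = X' (Y' ξ) := congrArg (fun W : H →L[𝕜] H => W ξ) e2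
    rw [this, hξ, map_sub, e3, sub_self, map_zero]
  have e5 : Y ξ = 0 := inj (u1 hX hF) _ (by
    have := congrArg T e4
    rw [map_add, map_smul, map_sub, hTS] at this
    simpa using this)
  rw [e5, map_zero, zero_add, smul_eq_zero_iff_right ht, sub_eq_zero] at e4
  have e6 : T ξ = 0 := inj (u2 hY hG) _ (by rw [e4] at e5; exact e5)
  rw [e6, map_zero, hξ, sub_eq_zero] at e4
  rw [e4, hTS] at hTe
  rw [hTe, map_zero] at e4
  exact he e4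

lemma reps {S T : H →L[𝕜] H} (hS : ∀ n, ‖S ^ n‖ ≤ 1) (hT : ∀ n, ‖T ^ n‖ ≤ 1)
    (hT0 : ∀ ξ, Tendsto (fun n => (T ^ n) ξ) atTop (𝓝 0)) (hA : ∀ x ∈ NN 𝕜 S T, ∃ a, j a = x)
    (X : H →L[𝕜] H) (hX : ‖X‖ ≤ 1) (hx : ∀ n, X * (1 - S ^ n * T ^ n) ∈ NN 𝕜 S T) :
    ∃ F : StrongDual 𝕜 (StrongDual 𝕜 A), Rep j F X := by
  choose z hz using fun n => hA _ (hx n)
  refine lim_rep z (fun n => ?_) fun ξ => ?_
  · rw [← j.norm_map, hz]
    simpa using (norm_mul_le X _).trans (mul_le_mul hX (P_le hS hT n) (norm_nonneg _) zero_le_one)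
  · have : Tendsto (fun n => (S ^ n) ((T ^ n) ξ)) atTop (𝓝 0) := squeeze_zero_norm
      (fun n => by simpa using (S ^ n).le_of_opNorm_le (hS n) _)
      (tendsto_zero_iff_norm_tendsto_zero.1 (hT0 ξ))
    have h2 := (X.continuous.tendsto _).comp (this.const_sub ξ)
    rw [sub_zero] at h2
    simp only [hz]
    exact h2

lemma dd0 {E : Type} [NormedAddCommGroup E] [NormedSpace 𝕜 E] (F G : StrongDual 𝕜 E) :
    dist (F + G) F = ‖G‖ := by rw [dist_eq_norm, add_sub_cancel_left]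

lemma dd {E : Type} [NormedAddCommGroup E] [NormedSpace 𝕜 E] (F : StrongDual 𝕜 (StrongDual 𝕜 E))
    (a : E) : dist (F + NormedSpace.inclusionInDoubleDual 𝕜 E a) F ≤ ‖a‖ :=
  (dd0 F _).trans_le (NormedSpace.double_dual_bound 𝕜 E a)

omit [CompleteSpace H] in
lemma pert {P : H →L[𝕜] H} (hP : ‖P‖ ≤ 2) {a : A} (ha : j a = P) (r : ℝ) (hr : 0 < r)
    (F : StrongDual 𝕜 (StrongDual 𝕜 A)) (X : H →L[𝕜] H) (k : Rep j F X) :
    ∃ t : 𝕜, t ≠ 0 ∧ ∃ F', dist F' F < r ∧ Rep j F' (X + t • P) := by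
  let t : 𝕜 := ((r / 3 : ℝ) : 𝕜)
  have ht : ‖t‖ = r / 3 := by rw [RCLike.norm_ofReal, abs_of_pos (by positivity)]
  have h1 : ‖t • a‖ < r := by
    rw [norm_smul, ← j.norm_map, ha, ht]
    nlinarith
  have h2 := k.add (t • a)
  rw [j.map_smul, ha] at h2
  exact ⟨t, norm_pos_iff.1 (by rw [ht]; positivity), _, (dd F (t • a)).trans_lt h1, h2⟩

theorem not_weak {S T : H →L[𝕜] H} (h : T * S = 1) (hS : ∀ n, ‖S ^ n‖ ≤ 1) (hT : ∀ n, ‖T ^ n‖ ≤ 1)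
    (hT0 : ∀ ξ, Tendsto (fun n => (T ^ n) ξ) atTop (𝓝 0)) {e : H} (he : e ≠ 0) (hTe : T e = 0)
    (hA : ∀ x ∈ NN 𝕜 S T, ∃ a, j a = x) (m : StrongDual 𝕜 (StrongDual 𝕜 A) →
      StrongDual 𝕜 (StrongDual 𝕜 A) → StrongDual 𝕜 (StrongDual 𝕜 A))
    (hm : ∀ F G X Y, Rep j F X → Rep j G Y → Rep j (m F G) (X * Y)) : ¬ WeakOpenMul m := by
  have S1 : ‖S‖ ≤ 1 := by simpa using hS 1
  have T1 : ‖T‖ ≤ 1 := by simpa using hT 1
  obtain ⟨F0, f0⟩ := reps hS hT hT0 hA S S1 fun n => by simpa using S_mem h 1 (P_mem h n)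
  obtain ⟨G0, g0⟩ := reps hS hT hT0 hA T T1 fun n => T_mem' (P_mem h n)
  obtain ⟨a, ha⟩ := hA _ (P_mem h 1)
  have hP := P_le hS hT 1
  rw [pow_one, pow_one] at ha hP
  exact abs_nw (R := Rep j) Rep.near (exists_rep j) h S1 T1 he hTe f0 g0 (pert hP ha) m hm

theorem shift (𝕜 : Type) [RCLike 𝕜] : ∃ (S T : lp (fun _ : ℕ => 𝕜) 2 →L[𝕜] lp (fun _ : ℕ => 𝕜) 2),
    T * S = 1 ∧ (∀ n, ‖S ^ n‖ ≤ 1) ∧ (∀ n, ‖T ^ n‖ ≤ 1) ∧
    (∀ ξ, Tendsto (fun n => (T ^ n) ξ) atTop (𝓝 0)) ∧ ∃ e, e ≠ 0 ∧ T e = 0 := by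
  let b : HilbertBasis ℕ 𝕜 (lp (fun _ : ℕ => 𝕜) 2) := default
  have ho := (b.orthonormal.comp Nat.succ Nat.succ_injective).orthogonalFamily
  let S := ho.linearIsometry.comp b.repr.toLinearIsometry
  have hS : ∀ i, S (b i) = b (i + 1) := fun i => by
    change ho.linearIsometry (b.repr (b i)) = _
    rw [b.repr_self, ho.linearIsometry_apply_single]
    simp
  have h1 := S.adjoint_comp_self
  have n1 : ‖S.toContinuousLinearMap‖ ≤ 1 := S.norm_toContinuousLinearMap_le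
  set T := S.toContinuousLinearMap.adjoint with hT
  have n2 : ‖T‖ ≤ 1 := by rwa [hT, LinearIsometryEquiv.norm_map]
  have pw : ∀ X : lp (fun _ : ℕ => 𝕜) 2 →L[𝕜] lp (fun _ : ℕ => 𝕜) 2, ‖X‖ ≤ 1 → ∀ n, ‖X ^ n‖ ≤ 1 :=
    fun X hX n => by
      induction n with
      | zero => exact ContinuousLinearMap.norm_id_le
      | succ n ih => rw [pow_succ]; exact (norm_mul_le _ _).trans (mul_le_one₀ ih (norm_nonneg _) hX)
  have t0 : T (b 0) = 0 := b.repr.injective (by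
    ext i
    rw [b.repr_apply_apply, hT, ContinuousLinearMap.adjoint_inner_right]
    change ⟪S (b i), b 0⟫_𝕜 = _
    rw [hS, b.orthonormal.2 (Nat.succ_ne_zero i)]
    simp)
  have t1 : ∀ i, T (b (i + 1)) = b i := fun i => by
    rw [← hS]; exact congrArg (fun W : _ →L[𝕜] _ => W (b i)) h1
  have t2 : ∀ i, (T ^ (i + 1)) (b i) = 0 := fun i => by
    induction i with
    | zero => rwa [zero_add, pow_one]
    | succ i ih => rw [pow_succ, mul_apply_eq_comp, t1, ih]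
  refine ⟨S.toContinuousLinearMap, T, h1, pw _ n1, pw _ n2, fun ξ => ?_, b 0, b.orthonormal.ne_zero 0, t0⟩
  refine Metric.tendsto_atTop.2 fun ε hε => ?_
  obtain ⟨N, hN⟩ := Metric.tendsto_atTop.1 (b.hasSum_repr ξ).tendsto_sum_nat ε hε
  refine ⟨N, fun n hn => ?_⟩
  have e : (T ^ n) (∑ i ∈ Finset.range N, b.repr ξ i • b i) = 0 := by
    rw [map_sum]
    refine Finset.sum_eq_zero fun i hi => ?_
    obtain ⟨d, rfl⟩ := Nat.exists_eq_add_of_le' ((Finset.mem_range.1 hi).trans_le hn : i + 1 ≤ n)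
    rw [map_smul, pow_add, mul_apply_eq_comp, t2]; simp
  rw [← e, dist_eq_norm, ← map_sub]
  refine ((T ^ n).le_of_opNorm_le (pw _ n2 n) _).trans_lt ?_
  rw [one_mul, ← dist_eq_norm, dist_comm]
  exact hN N le_rfl

end Pool.Agent.H.MP_5068ad_an
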